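import Pool.Agent.W360.BQ.Stm
import Pool.Agent.W116.IW.Ibp

/-! Project BQ: the flow theorem at every `F0`. -/

set_option autoImplicit false

namespace Pool.Agent.W439.BQ.FlowF

open MeasureTheory Set Filter Topology
open Pool.Agent.W360.BQ
open Pool.Agent.W488.IW hiding Dat sm smI Vf VN VI pr Sol Conv S_ODE S_EN S_COMP S_LIM S_LEQ S_STR
  S_TAIL S_CONC

theorem cont_gd (Λ : Finset Idx) (c : Idx → ℂ) : Continuous (gd Λ c) :=
  (Pool.Agent.W116.IW.Ibp.contDiff_gd Λ c 1).continuous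

theorem vol_cube : (volume : Measure V).real (Icc (0 : V) 1) = 1 := by
  rw [Measure.real, Real.volume_Icc_pi_toReal (by intro i; simp)]
  simp

/-- a linear functional of a periodic gradient has mean zero -/
theorem integral_lin (ℓ : ℂ × ℂ →L[ℝ] ℝ) (Λ : Finset Idx) (c : Idx → ℂ) :
    ∫ x in Icc (0 : V) 1, ℓ (gd Λ c x) = 0 := by
  have h1 := Pool.Agent.W116.IW.Ibp.main (fun F => ℓ F) ℓ.contDiff Λ c c
  have h2 : ∀ F : ℂ × ℂ, fderiv ℝ (fun F => ℓ F) F = ℓ := fun F => ℓ.fderiv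
  have h3 : fderiv ℝ (fun F : ℂ × ℂ => ℓ F) = fun _ => ℓ := funext h2
  have h4 : ∀ (F : ℂ × ℂ) (p q r φ : ℂ), DIV (fun F => ℓ F) F p q r φ = 0 := by
    intro F p q r φ
    unfold DIV
    rw [h3]
    simp
  simp only [h4, h2] at h1
  simpa using h1

theorem main (h : S_FLOWV) : S_FLOWF := by
  intro s m n hC w hw hK F0 hpos N c
  obtain ⟨K, hK⟩ := hK
  obtain ⟨hn, hs, hm, ⟨M, hM⟩, ⟨L, hL⟩, ⟨L', hL'⟩⟩ := hC
  have hC' : Cf (fun F => s (F0 + F)) (fun F => m (F0 + F)) n := by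
    refine ⟨hn, fun F => hs _, fun F => hm _, ⟨M, fun F => hM _⟩, ⟨L, fun F F' => ?_⟩,
      ⟨L', fun F F' => ?_⟩⟩
    · have := hL (F0 + F) (F0 + F')
      rwa [add_sub_add_left_eq_sub] at this
    · have := hL' (F0 + F) (F0 + F')
      rwa [add_sub_add_left_eq_sub] at this
  have hwd : Differentiable ℝ w := hw.differentiable two_ne_zero
  set w1 : ℂ × ℂ → ℝ := fun F => w (F0 + F) - w F0 - fderiv ℝ w F0 F with hw1
  have hd1 : fderiv ℝ w1 = fun F => fderiv ℝ w (F0 + F) - fderiv ℝ w F0 := by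
    funext F
    have e1 : HasFDerivAt (fun F => w (F0 + F)) (fderiv ℝ w (F0 + F)) F := by
      have e0 := (hwd (F0 + F)).hasFDerivAt.comp F ((hasFDerivAt_id F).const_add F0)
      rw [ContinuousLinearMap.comp_id] at e0
      exact e0
    exact ((e1.sub_const (w F0)).sub (fderiv ℝ w F0).hasFDerivAt).fderiv
  have hd2 : ∀ F, fderiv ℝ (fderiv ℝ w1) F = fderiv ℝ (fderiv ℝ w) (F0 + F) := by
    intro F
    rw [hd1, fderiv_sub_const, fderiv_comp_add_left]
  have hc1 : ContDiff ℝ 2 w1 := by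
    rw [hw1]
    exact ((hw.comp (contDiff_const.add contDiff_id)).sub contDiff_const).sub
      (fderiv ℝ w F0).contDiff
  have hD : ∀ (F : ℂ × ℂ) (p q r φ : ℂ), DIV w1 F p q r φ = DIV w (F0 + F) p q r φ := by
    intro F p q r φ
    unfold DIV
    rw [hd2]
  have hq := h (fun F => s (F0 + F)) (fun F => m (F0 + F)) n hC' w1 hc1
    ⟨K, fun F => by rw [hd2]; exact hK _⟩ (by simp [hw1]) (by simp [hd1])
    (fun N c => by
      simp only [hD]
      exact hpos N c) N c
  have hg := cont_gd (box N) c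
  have i1 : IntegrableOn (fun x => w (F0 + gd (box N) c x)) (Icc (0 : V) 1) :=
    (hwd.continuous.comp (continuous_const.add hg)).continuousOn.integrableOn_compact
      isCompact_Icc
  have i2 : IntegrableOn (fun _ : V => w F0) (Icc (0 : V) 1) :=
    continuous_const.continuousOn.integrableOn_compact isCompact_Icc
  have i3 : IntegrableOn (fun x => fderiv ℝ w F0 (gd (box N) c x)) (Icc (0 : V) 1) :=
    ((fderiv ℝ w F0).continuous.comp hg).continuousOn.integrableOn_compact isCompact_Icc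
  have e1 : ∫ x in Icc (0 : V) 1, w1 (gd (box N) c x) =
      (∫ x in Icc (0 : V) 1, w (F0 + gd (box N) c x)) - w F0 := by
    simp only [hw1]
    have e2 : ∫ x in Icc (0 : V) 1, (w (F0 + gd (box N) c x) - w F0 -
        fderiv ℝ w F0 (gd (box N) c x)) =
        (∫ x in Icc (0 : V) 1, (w (F0 + gd (box N) c x) - w F0)) -
          ∫ x in Icc (0 : V) 1, fderiv ℝ w F0 (gd (box N) c x) := integral_sub (i1.sub i2) i3
    have e3 : ∫ x in Icc (0 : V) 1, (w (F0 + gd (box N) c x) - w F0) =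
        (∫ x in Icc (0 : V) 1, w (F0 + gd (box N) c x)) - ∫ _ in Icc (0 : V) 1, w F0 :=
      integral_sub i1 i2
    rw [e2, e3, integral_lin, setIntegral_const, vol_cube]
    simp
  rw [e1] at hq
  linarith

end Pool.Agent.W439.BQ.FlowF
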